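import Pool.Agent.TH872.PF.A8

set_option autoImplicit false

namespace Pool.Agent.Results.MP_540de1_nt.ShiftedTuples
open Finset Filter Topology
open Pool.Agent.TH872.PF (vv pal_vv pal_cop fund adm_half pb mem_pb cntOm mainOm OmC OmC_sub OmC_card_le OmC_card OmC_mem)

/-- the decimal palindrome that begins and ends with the digits `w` (read inwards) and has the digits `u` (read outwards)
next to its middle digit `c` -/
def palin (L : ℕ) (w : List ℕ) (u : Fin L → Fin 10) (c : Fin 10) : ℕ :=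
  Nat.ofDigits 10 (w ++ (List.ofFn fun i => (u i : ℕ)).reverse ++ [(c : ℕ)] ++ (List.ofFn fun i => (u i : ℕ)) ++ w.reverse)

/-- no prime factor is at most `y` -/
def Rough (y n : ℕ) : Prop := ∀ p : ℕ, p.Prime → p ∣ n → y < p

/-- the number of residue classes modulo `p` that contain an element of `H` -/
def nu (H : Finset ℕ) (p : ℕ) : ℕ := (H.image (fun h => h % p)).card

open Classical in
/-- the number of the palindromes `n = a (mod q)` with outer digits `w` such that all `n + h` are rough -/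
noncomputable def number (L q a y : ℕ) (w : List ℕ) (H : Finset ℕ) : ℝ :=
  (((univ : Finset ((Fin L → Fin 10) × Fin 10)).filter (fun x => palin L w x.1 x.2 ≡ a [MOD q] ∧ ∀ h ∈ H, Rough y (palin L w x.1 x.2 + h))).card : ℝ)

/-- the expected number -/
noncomputable def expected (L q y : ℕ) (H : Finset ℕ) : ℝ :=
  10 ^ (L + 1) / q * ∏ p ∈ (Icc 1 y).filter (fun p => p.Prime ∧ ¬ p ∣ 10 ∧ ¬ p ∣ q), (1 - (nu H p : ℝ) / p)

/-- **Decimal palindromes in constellations of almost primes and in arithmetic progressions.** -/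
theorem result (ε : ℝ) (hε : 0 < ε) (A B : ℕ) : ∃ δ : ℝ, 0 < δ ∧ ∃ L₀ : ℕ, ∀ L : ℕ, L₀ ≤ L → ∀ (d : ℕ) (w : List ℕ), 0 < d → (∀ x ∈ d :: w, x < 10) →
    ∀ q a : ℕ, q.Coprime 10 → 1 ≤ q → (q : ℝ) ≤ (L : ℝ) ^ B → ∀ H : Finset ℕ, H.card ≤ 4 → (∀ h ∈ H, (d + h).Coprime 10 ∧ (a + h).Coprime q) →
    ∀ y : ℕ, (y : ℝ) ≤ (10 : ℝ) ^ (δ * L) →
    |number L q a y (d :: w) H - expected L q y H| ≤ ε * expected L q y H + 10 ^ L / (L : ℝ) ^ A := by
  classical
  obtain ⟨δ, hδ, hev⟩ := fund (b := 10) (by norm_num) (adm_half (by norm_num) (κ := 49 / 100) (by norm_num) (by norm_num)) ε hε (A + 1) B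
  rw [eventually_atTop] at hev
  obtain ⟨L0, hev⟩ := hev
  refine ⟨δ, hδ, max L0 10, fun L hL d w _ _ q a hq hq1 hqL H hH4 hH y hy => ?_⟩
  have hL0 : L0 ≤ L := le_trans (le_max_left _ _) hL
  have hL10 : (10 : ℝ) ≤ L := by exact_mod_cast le_trans (le_max_right _ _) hL
  obtain ⟨N0, hN0⟩ : ∃ N0 : ℕ, N0 = Nat.ofDigits 10 (d :: w) + 10 ^ (2 * L + w.length + 2) * Nat.ofDigits 10 (d :: w).reverse := ⟨_, rfl⟩
  have hpal : ∀ (u : Fin L → Fin 10) (c : Fin 10), palin L (d :: w) u c = vv 10 L w.length (N0 + (c : ℕ) * 10 ^ (L + w.length + 1)) u := by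
    intro u c
    have h1 := pal_vv 10 L w.length (d :: w) (by simp) u c
    rw [← hN0] at h1
    refine Eq.trans h1 ?_
    unfold vv
    ring
  have hq20 : q.Coprime (2 * 10) := by
    have h2 : q.Coprime 2 := Nat.Coprime.coprime_dvd_right (by norm_num) hq
    exact Nat.Coprime.mul_right h2 hq
  have h20 : ∀ p : ℕ, p.Prime → (p ∣ 2 * 10 ↔ p ∣ 10) := by
    intro p hp
    constructor
    · intro h
      rcases (Nat.Prime.dvd_mul hp).1 h with h1 | h1
      · exact h1.trans (by norm_num)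
      · exact h1
    · exact fun h => h.mul_left 2
  have hpb : pb 10 q y = (Icc 1 y).filter (fun p => p.Prime ∧ ¬ p ∣ 10 ∧ ¬ p ∣ q) := by
    ext p
    rw [mem_pb, mem_filter, mem_Icc]
    constructor
    · rintro ⟨h4, h5, h6, h7⟩
      exact ⟨⟨h5.one_le, h4⟩, h5, fun h => h6 ((h20 p h5).2 h), h7⟩
    · rintro ⟨⟨_, h4⟩, h5, h6, h7⟩
      exact ⟨h4, h5, fun h => h6 ((h20 p h5).1 h), h7⟩
  have h1 : ∀ c : Fin 10, |cntOm 10 L w.length (N0 + (c : ℕ) * 10 ^ (L + w.length + 1)) q a y (OmC H) - mainOm 10 L q y (OmC H)| ≤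
      ε * mainOm 10 L q y (OmC H) + ((10 : ℕ) : ℝ) ^ L / (L : ℝ) ^ (A + 1) := by
    intro c
    exact hev L hL0 w.length _ q a y hq20 hq1 hqL (by push_cast; exact hy) (OmC H) (by
      intro p hp
      exact ⟨OmC_sub _ p (mem_pb.1 hp).2.1.pos, (OmC_card_le _ p).trans hH4⟩)
  have h2 : expected L q y H = ∑ _c : Fin 10, mainOm 10 L q y (OmC H) := by
    rw [sum_const, card_univ, Fintype.card_fin, nsmul_eq_mul]
    unfold mainOm expected
    rw [hpb, pow_succ]
    have h3 : ∏ p ∈ (Icc 1 y).filter (fun p => p.Prime ∧ ¬ p ∣ 10 ∧ ¬ p ∣ q), (1 - (nu H p : ℝ) / p) =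
        ∏ p ∈ (Icc 1 y).filter (fun p => p.Prime ∧ ¬ p ∣ 10 ∧ ¬ p ∣ q), (1 - ((OmC H p).card : ℝ) / p) := by
      apply prod_congr rfl
      intro p hp
      rw [mem_filter] at hp
      rw [OmC_card _ p hp.2.1.pos]
      rfl
    rw [h3]
    push_cast
    ring
  have h3 : number L q a y (d :: w) H = ∑ c : Fin 10, cntOm 10 L w.length (N0 + (c : ℕ) * 10 ^ (L + w.length + 1)) q a y (OmC H) := by
    unfold number cntOm
    rw [card_filter, Fintype.sum_prod_type_right, Nat.cast_sum]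
    apply sum_congr rfl
    intro c _
    rw [card_filter]
    congr 1
    apply sum_congr rfl
    intro u _
    refine if_congr ?_ rfl rfl
    rw [hpal]
    apply and_congr_right
    intro hmod
    constructor
    · intro h4 p hp
      obtain ⟨h5, h6, _, _⟩ := mem_pb.1 hp
      rw [OmC_mem _ p _ h6.pos]
      intro h hh hpd
      have h7 := h4 h hh p h6 hpd
      omega
    · intro h4 h hh p hp hpd
      by_contra hpy
      push Not at hpy
      by_cases hp10 : p ∣ 10
      · have h5 := (pal_cop 10 L (d :: w) u c d w rfl h p hp10).1 (by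
          have h6 := hpal u c
          change Pool.Agent.TH872.PF.pal 10 L (d :: w) u c = _ at h6
          rw [h6]
          exact hpd)
        exact hp.one_lt.ne' (Nat.eq_one_of_dvd_coprimes (hH h hh).1 h5 hp10)
      · by_cases hpq : p ∣ q
        · have h5 : a + h ≡ 0 [MOD p] := by
            have h6 := ((hmod.of_dvd hpq).add_right h).symm
            exact h6.trans (Nat.modEq_zero_iff_dvd.2 hpd)
          exact hp.one_lt.ne' (Nat.eq_one_of_dvd_coprimes (hH h hh).2 (Nat.modEq_zero_iff_dvd.1 h5) hpq)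
        · have h5 := (OmC_mem H p _ hp.pos).1 (h4 p (mem_pb.2 ⟨hpy, hp, fun h => hp10 ((h20 p hp).1 h), hpq⟩)) h hh
          exact h5 hpd
  rw [h2, h3, ← sum_sub_distrib]
  refine (abs_sum_le_sum_abs _ _).trans ((sum_le_sum fun c _ => h1 c).trans ?_)
  rw [sum_add_distrib, ← mul_sum]
  apply add_le_add le_rfl
  rw [sum_const, card_univ, Fintype.card_fin, nsmul_eq_mul]
  push_cast
  have hLp : (0 : ℝ) < L := by linarith
  have h4 : (10 : ℝ) / (L : ℝ) ≤ 1 := by rw [div_le_one hLp]; exact hL10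
  calc (10 : ℝ) * (10 ^ L / (L : ℝ) ^ (A + 1)) = (10 / (L : ℝ)) * (10 ^ L / (L : ℝ) ^ A) := by
        rw [pow_succ]
        field_simp
    _ ≤ 1 * (10 ^ L / (L : ℝ) ^ A) := mul_le_mul_of_nonneg_right h4 (by positivity)
    _ = _ := one_mul _

end Pool.Agent.Results.MP_540de1_nt.ShiftedTuples
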